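import Pool.Agent.W569.UF.CycC

/-!
# Tamely ramified `p`-adic representations of `ℚ(ζ_p)` of dimension at most `p - 2`

Let `p` be a regular prime, `K = ℚ(ζ_p)`, and let `S` be a set of primes `q ≠ p` whose order modulo
`p` is divisible by `N` and with `p ^ (e + 1) ∤ q ^ (p - 1) - 1`.  Then every continuous
representation of the absolute Galois group of `K` over a discrete valuation ring with residue
characteristic `p` and absolute ramification index `e0`, which is unramified outside `S` (so also
at `p`), has unipotent reduction and has dimension `n` with `n e e0 < N`, is trivial.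
-/

set_option autoImplicit false

open NumberField IsLocalRing

namespace Pool.Agent.Results.MP_f68ac8_nt.CyclotomicTame

/-- the absolute Galois group of the field `F`, with the Krull topology -/
abbrev AbsGal (F : Type) [Field F] : Type := Gal(AlgebraicClosure F/F)

/-- the field `F(ζ_p)`, generated over `F` by the `p`-th roots of unity -/
noncomputable abbrev cyclotomicField (F : Type) [Field F] (p : ℕ) :
    IntermediateField F (AlgebraicClosure F) :=
  IntermediateField.adjoin F {z : AlgebraicClosure F | z ^ p = 1}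

/-- the absolute Galois group of `K = ℚ(ζ_p)`: the group of all automorphisms of the algebraic
closure of `ℚ` which fix `K` -/
noncomputable abbrev GK (p : ℕ) : Subgroup (AbsGal ℚ) := (cyclotomicField ℚ p).fixingSubgroup

/-- `τ` lies in the inertia group at the prime ideal `P` of the ring of all algebraic integers -/
def InInertia (P : Ideal (𝓞 (AlgebraicClosure ℚ))) (τ : AbsGal ℚ) : Prop :=
  ∀ x : 𝓞 (AlgebraicClosure ℚ), τ • x - x ∈ P

/-- `K = ℚ(ζ_p)` has no everywhere unramified cyclic extension of degree `p` (that is, `p` is a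
regular prime): every homomorphism with open kernel from `GK p` to `ℤ/p` that is trivial on all
inertia groups is trivial. -/
def NoUnramifiedExtension (p : ℕ) : Prop :=
  ∀ f : GK p →* Multiplicative (ZMod p), IsOpen (f.ker : Set (GK p)) →
    (∀ P : Ideal (𝓞 (AlgebraicClosure ℚ)), P.IsMaximal → ∀ τ : GK p, InInertia P τ → f τ = 1) →
    ∀ g, f g = 1

/-- `ρ` is unramified outside `S`: it is trivial on the inertia groups in `GK p` at all maximal
ideals which contain no prime number in `S` (in particular at those containing `p`). -/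
def UnramifiedOutside {p n : ℕ} {A : Type} [CommRing A] (S : Set ℕ)
    (ρ : GK p →* GL (Fin n) A) : Prop :=
  ∀ P : Ideal (𝓞 (AlgebraicClosure ℚ)), P.IsMaximal →
    (∀ q ∈ S, (q : 𝓞 (AlgebraicClosure ℚ)) ∉ P) → ∀ τ : GK p, InInertia P τ → ρ τ = 1

/-- Every `ρ g` is unipotent modulo the maximal ideal: some power of `ρ g - 1` has all entries in
the maximal ideal. -/
def ResiduallyUnipotent {p n : ℕ} {A : Type} [CommRing A] [IsLocalRing A]
    (ρ : GK p →* GL (Fin n) A) : Prop :=
  ∀ g, ∃ M : ℕ, ∀ i j, (((ρ g : Matrix (Fin n) (Fin n) A) - 1) ^ M) i j ∈ maximalIdeal A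

theorem result (p : ℕ) [Fact p.Prime] (hreg : p ≤ 7 ∨ NoUnramifiedExtension p) (e N : ℕ)
    (hN : N ∣ p - 1) (S : Set ℕ)
    (hS : ∀ q ∈ S, q.Prime ∧ q ≠ p ∧ N ∣ orderOf (q : ZMod p) ∧ ¬ p ^ (e + 1) ∣ q ^ (p - 1) - 1)
    (A : Type) [CommRing A] [IsDomain A] [IsDiscreteValuationRing A] [TopologicalSpace A]
    (hA : IsAdic (maximalIdeal A)) (hfin : Finite (ResidueField A)) (e0 : ℕ)
    (hp : (p : A) ∈ maximalIdeal A) (h0 : (p : A) ∈ maximalIdeal A ^ e0)
    (h1 : (p : A) ∉ maximalIdeal A ^ (e0 + 1)) (n : ℕ) (hn : n * e * e0 < N)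
    (ρ : GK p →* GL (Fin n) A) (hρ : Continuous ρ) (hur : UnramifiedOutside S ρ)
    (hres : ResiduallyUnipotent ρ) : ∀ g, ρ g = 1 :=
  Pool.Agent.W569.UF.mainCyc hreg hN hS hA hfin hp (Pool.Agent.W569.UF.regOrd_dvr h0 h1) hn ρ hρ
    (fun τ ⟨P, hP, hPS, hτ⟩ => hur P hP hPS τ hτ) hres

end Pool.Agent.Results.MP_f68ac8_nt.CyclotomicTame
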