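import Pool.Agent.W569.UH.Main

/-!
# Ordinary `p`-adic representations of `G_ℚ` with small weights

Let `p` be a regular prime, `N ∣ p - 1`, and let `S` be a set of primes `q ≠ p` whose order modulo
`p` is divisible by `N`.  Let `ρ` be a continuous representation of the absolute Galois group of
`ℚ`, of any dimension and over any Noetherian local ring with finite residue field of
characteristic `p`, which is unramified outside `S` and `p`, unipotent modulo the maximal ideal on
the absolute Galois group of `ℚ(ζ_p)`, and ordinary at `p` with weights in an interval of length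
at most `N - 2`: on the inertia group at one prime above `p` it is a successive extension of
powers `χ ^ w` of the cyclotomic character `χ` with decreasing weights `w`.  Then the same holds
for the whole Galois group: all of `ρ` is a successive extension of powers of `χ`.
-/

set_option autoImplicit false

open NumberField IsLocalRing

namespace Pool.Agent.Results.MP_f68ac8_nt.OrdinaryTate

/-- the absolute Galois group of the field `F`, with the Krull topology -/
abbrev AbsGal (F : Type) [Field F] : Type := Gal(AlgebraicClosure F/F)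

/-- the field `F(ζ_p)`, generated over `F` by the `p`-th roots of unity -/
noncomputable abbrev cyclotomicField (F : Type) [Field F] (p : ℕ) :
    IntermediateField F (AlgebraicClosure F) :=
  IntermediateField.adjoin F {z : AlgebraicClosure F | z ^ p = 1}

/-- the absolute Galois group of `K = ℚ(ζ_p)`: the group of all automorphisms of the algebraic
closure of `ℚ` which fix `K` -/
noncomputable abbrev GK (p : ℕ) : Subgroup (AbsGal ℚ) := (cyclotomicField ℚ p).fixingSubgroup

/-- `τ` lies in the inertia group at the prime ideal `P` of the ring of all algebraic integers -/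
def InInertia (P : Ideal (𝓞 (AlgebraicClosure ℚ))) (τ : AbsGal ℚ) : Prop :=
  ∀ x : 𝓞 (AlgebraicClosure ℚ), τ • x - x ∈ P

/-- `K = ℚ(ζ_p)` has no everywhere unramified cyclic extension of degree `p` (that is, `p` is a
regular prime): every homomorphism with open kernel from `GK p` to `ℤ/p` that is trivial on all
inertia groups is trivial. -/
def NoUnramifiedExtension (p : ℕ) : Prop :=
  ∀ f : GK p →* Multiplicative (ZMod p), IsOpen (f.ker : Set (GK p)) →
    (∀ P : Ideal (𝓞 (AlgebraicClosure ℚ)), P.IsMaximal → ∀ τ : GK p, InInertia P τ → f τ = 1) →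
    ∀ g, f g = 1

/-- `χ` is the `p`-adic cyclotomic character with values in `A`: if `g` raises the `p ^ k`-th roots
of unity to the power `m`, then `χ g` is congruent to `m` modulo `p ^ k`. -/
def IsCyclotomicCharacter (p : ℕ) {A : Type} [CommRing A] (χ : AbsGal ℚ →* Aˣ) : Prop :=
  ∀ (k m : ℕ) (g : AbsGal ℚ), (∀ z : AlgebraicClosure ℚ, z ^ p ^ k = 1 → g z = z ^ m) →
    ∃ a : A, (χ g : A) = m + p ^ k * a

/-- `ρ` is unramified outside `p` and `S`: it is trivial on the inertia groups at all maximal
ideals which contain neither `p` nor a prime number in `S`. -/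
def UnramifiedOutside {n : ℕ} {A : Type} [CommRing A] (p : ℕ) (S : Set ℕ)
    (ρ : AbsGal ℚ →* GL (Fin n) A) : Prop :=
  ∀ P : Ideal (𝓞 (AlgebraicClosure ℚ)), P.IsMaximal → (p : 𝓞 (AlgebraicClosure ℚ)) ∉ P →
    (∀ q ∈ S, (q : 𝓞 (AlgebraicClosure ℚ)) ∉ P) → ∀ τ, InInertia P τ → ρ τ = 1

/-- For every `g` in `GK p`, the matrix `ρ g` is unipotent modulo the maximal ideal: some power of
`ρ g - 1` has all entries in the maximal ideal. -/
def ResiduallyUnipotent {n : ℕ} {A : Type} [CommRing A] [IsLocalRing A] (p : ℕ)
    (ρ : AbsGal ℚ →* GL (Fin n) A) : Prop :=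
  ∀ g ∈ GK p, ∃ M : ℕ, ∀ i j,
    (((ρ g : Matrix (Fin n) (Fin n) A) - 1) ^ M) i j ∈ maximalIdeal A

/-- The matrix `M` has the diagonal entries `x ^ w i`, and its other entries `M i j` vanish unless
`w j < w i`; so it preserves the filtration by the subspaces spanned by the basis vectors of weight
at least `k`, and acts on the `k`-th graded piece as the scalar `x ^ k`. -/
def TateShape {n : ℕ} {A : Type} [CommRing A] (w : Fin n → ℤ) (x : Aˣ)
    (M : Matrix (Fin n) (Fin n) A) : Prop :=
  (∀ i j, i ≠ j → w i ≤ w j → M i j = 0) ∧ ∀ i, M i i = ((x ^ w i : Aˣ) : A)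

theorem result (p : ℕ) [Fact p.Prime] (hreg : p ≤ 7 ∨ NoUnramifiedExtension p) (N : ℕ)
    (hN : N ∣ p - 1) (S : Set ℕ)
    (hS : ∀ q ∈ S, q.Prime ∧ q ≠ p ∧ N ∣ orderOf (q : ZMod p))
    (A : Type) [CommRing A] [IsLocalRing A] [IsNoetherianRing A] [TopologicalSpace A]
    (hA : IsAdic (maximalIdeal A)) (hfin : Finite (ResidueField A))
    (hp : (p : A) ∈ maximalIdeal A) (χ : AbsGal ℚ →* Aˣ) (hχ : IsCyclotomicCharacter p χ)
    (n : ℕ) (w : Fin n → ℤ) (hw : ∀ i j, w j - w i + 2 ≤ N)
    (ρ : AbsGal ℚ →* GL (Fin n) A) (hρ : Continuous ρ) (hur : UnramifiedOutside p S ρ)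
    (hres : ResiduallyUnipotent p ρ)
    (P : Ideal (𝓞 (AlgebraicClosure ℚ))) (hP : P.IsMaximal)
    (hpP : (p : 𝓞 (AlgebraicClosure ℚ)) ∈ P)
    (hord : ∀ τ, InInertia P τ → TateShape w (χ τ) (ρ τ : Matrix (Fin n) (Fin n) A)) :
    ∀ g, TateShape w (χ g) (ρ g : Matrix (Fin n) (Fin n) A) :=
  Pool.Agent.W569.UH.main hreg hN hS hA hfin hp χ hχ w hw ρ hρ hur hres hP hpP hord

end Pool.Agent.Results.MP_f68ac8_nt.OrdinaryTate
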