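import Pool.Agent.W569.FM.MainA
import Pool.Agent.W571.FM.Frob
import Pool.Agent.W655.FM.Unip
import Pool.Agent.W655.FM.Depth
import Pool.Agent.W134.FM.Cyclo
import Pool.Agent.W327.FM.TameAbs
import Pool.Agent.W258.FM.TameFin
import Pool.Agent.W215.FM.Gen

/-!
# Fontaine-Mazur for tame representations congruent to the trivial one

Let `p ^ m > 2` and let `S` be a finite set of primes `l ≠ p` with `p ^ (m + 1) ∤ l - 1`.  If every
nonempty set `J ⊆ S` of primes `l ≡ 1 mod p ^ m` contains a prime which is a `p`-th power modulo all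
but at most one of the other primes in `J`, then every continuous representation
`Gal(ℚbar/ℚ) → GL_n(ℤ_p)` that is unramified outside `S` and trivial modulo `p ^ m` is trivial.
-/

set_option autoImplicit false

open NumberField

namespace Pool.Agent.Results.MP_f68ac8_nt.TameCongruence

/-- The representation `ρ` of the absolute Galois group of `ℚ` is unramified at the prime ideal `P`
of the ring of all algebraic integers: the inertia group at `P` acts trivially. -/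
def UnramifiedAt {p n : ℕ} [Fact p.Prime] (ρ : Gal(AlgebraicClosure ℚ/ℚ) →* GL (Fin n) ℤ_[p])
    (P : Ideal (𝓞 (AlgebraicClosure ℚ))) : Prop :=
  ∀ τ : Gal(AlgebraicClosure ℚ/ℚ), (∀ x : 𝓞 (AlgebraicClosure ℚ), τ • x - x ∈ P) → ρ τ = 1

/-- `ρ` is unramified at all primes that do not lie above a prime number in `S` (in particular at
the primes above `p`, if `p ∉ S`). -/
def UnramifiedOutside {p n : ℕ} [Fact p.Prime] (S : Finset ℕ)
    (ρ : Gal(AlgebraicClosure ℚ/ℚ) →* GL (Fin n) ℤ_[p]) : Prop :=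
  ∀ P : Ideal (𝓞 (AlgebraicClosure ℚ)), P.IsMaximal →
    (∀ l ∈ S, (l : 𝓞 (AlgebraicClosure ℚ)) ∉ P) → UnramifiedAt ρ P

/-- `ρ` is trivial modulo `p ^ m`. -/
def TrivialMod {p n : ℕ} [Fact p.Prime] (m : ℕ)
    (ρ : Gal(AlgebraicClosure ℚ/ℚ) →* GL (Fin n) ℤ_[p]) : Prop :=
  ∀ g, ∃ α : Matrix (Fin n) (Fin n) ℤ_[p],
    (ρ g : Matrix (Fin n) (Fin n) ℤ_[p]) = 1 + ((p : ℤ_[p]) ^ m) • α

/-- `l` is a `p`-th power modulo `j`. -/
def IsPowerMod (p l j : ℕ) : Prop := ∃ x : ZMod j, x ^ p = (l : ZMod j)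

/-- Every nonempty set `J ⊆ S` of primes congruent to `1` modulo `p ^ m` contains a prime `l` such
that at most one of the other primes `j ∈ J` has the property that `l` is not a `p`-th power
modulo `j`. -/
def SparselyLinked (p m : ℕ) (S : Finset ℕ) : Prop :=
  ∀ J : Finset ℕ, J ⊆ S → (∀ l ∈ J, p ^ m ∣ l - 1) → J.Nonempty →
    ∃ l ∈ J, {j : ℕ | j ∈ J ∧ j ≠ l ∧ ¬ IsPowerMod p l j}.Subsingleton

theorem result (p : ℕ) [Fact p.Prime] (m n : ℕ) (hm : 2 < p ^ m) (S : Finset ℕ)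
    (hS : ∀ l ∈ S, l.Prime ∧ l ≠ p ∧ ¬ p ^ (m + 1) ∣ l - 1) (hlink : SparselyLinked p m S)
    (ρ : Gal(AlgebraicClosure ℚ/ℚ) →* GL (Fin n) ℤ_[p]) (hρ : Continuous ρ)
    (hur : UnramifiedOutside S ρ) (hcong : TrivialMod m ρ) : ∀ g, ρ g = 1 := by
  have hp : p.Prime := Fact.out
  have hm1 : 1 ≤ m := by
    rcases Nat.eq_zero_or_pos m with h | h
    · rw [h, pow_zero] at hm
      omega
    · exact h
  refine Pool.Agent.W569.FM.mainA Pool.Agent.W215.FM.main
    (Pool.Agent.W327.FM.main Pool.Agent.W258.FM.main) Pool.Agent.W134.FM.main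
    Pool.Agent.W571.FM.main Pool.Agent.W655.FM.Unip.main Pool.Agent.W655.FM.Depth.main hm S hS
    (fun J hJ hJm hJn => ?_) ρ hρ (fun P hP hSP τ hτ => hur P hP hSP τ hτ) hcong
  obtain ⟨l, hl, hsub⟩ := hlink J hJ hJm hJn
  refine ⟨l, hl, fun i hi j hj hil hjl hbi hbj => ?_⟩
  have key : ∀ q ∈ J, q ≠ l → (l : ZMod q) ^ ((q - 1) / p) ≠ 1 → ¬ IsPowerMod p l q := by
    rintro q hq hql hb ⟨x, hx⟩
    apply hb
    have hqp : q.Prime := (hS q (hJ hq)).1
    have : Fact q.Prime := ⟨hqp⟩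
    have hpq : p ∣ q - 1 := (dvd_pow_self p (by omega)).trans (hJm q hq)
    have hx0 : x ≠ 0 := by
      rintro rfl
      rw [zero_pow hp.ne_zero] at hx
      have h1 : q ∣ l := (ZMod.natCast_eq_zero_iff l q).1 hx.symm
      exact hql ((Nat.prime_dvd_prime_iff_eq hqp (hS l (hJ hl)).1).1 h1)
    rw [← hx, ← pow_mul, Nat.mul_div_cancel' hpq]
    exact ZMod.pow_card_sub_one_eq_one hx0
  exact hsub ⟨hi, hil, key i hi hil hbi⟩ ⟨hj, hjl, key j hj hjl hbj⟩

end Pool.Agent.Results.MP_f68ac8_nt.TameCongruence
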