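import Pool.Agent.W569.TG.Main
import Pool.Agent.W405.TG.LD
import Pool.Agent.W578.TG.Orth
import Pool.Agent.W304.TG.WT
import Pool.Agent.W335.TG.GAIN
import Pool.Agent.W345.TG.NilDir
import Pool.Agent.W249.TG.CL
import Pool.Agent.W569.TG.BD
import Pool.Agent.W99.TG.Rel
import Pool.Agent.W32.TG.KOL
import Pool.Agent.W376.TG.Uni
import Pool.Agent.W598.TG.Red
import Pool.Agent.W462.TG.Add
import Pool.Agent.W64.TG.Cyc
import Pool.Agent.W345.TG.PtsDet
import Pool.Agent.W21.TG.C1
import Pool.Agent.W490.TG.C3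
import Pool.Agent.W101.TG.ZL
import Pool.Agent.W352.TG.ALGC
import Pool.Agent.W338.TG.H
import Pool.Agent.W308.TG.AlgA
import Pool.Agent.W308.TG.AlgB2
import Pool.Agent.W571.FM.Frob
import Pool.Agent.W327.FM.TameAbs
import Pool.Agent.W258.FM.TameFin
import Pool.Agent.W215.FM.Gen
import Pool.Agent.W22.FM.Exact

/-!
# The tame Fontaine-Mazur conjecture in dimension at most five

Let `p ≥ n + 2`, `n ≤ 5`, and let `S` be a finite set of primes different from `p` exactly four of
which are congruent to `1` modulo `p`.  Under a condition on the power residue relations between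
these four primes and on the powers of `p` dividing `l - 1`, every continuous representation
`Gal(ℚbar/ℚ) → GL_n(ℤ_p)` which is unramified outside `S` and has unipotent reduction modulo `p`
(that is, factors through the maximal pro-`p` quotient) is trivial.

Written by helper569 with helpers 21, 32, 64, 99, 101, 193, 249, 304, 308, 335, 338, 345, 352, 376,
405, 462, 490, 578, 598 (and 22, 215, 258, 327, 571 for the background on Galois groups).
-/

set_option autoImplicit false

open NumberField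

namespace Pool.Agent.Results.MP_f68ac8_nt.TameDimensionFive

/-- The representation `ρ` of the absolute Galois group of `ℚ` is unramified at the prime ideal `P`
of the ring of all algebraic integers: the inertia group at `P` acts trivially. -/
def UnramifiedAt {p n : ℕ} [Fact p.Prime] (ρ : Gal(AlgebraicClosure ℚ/ℚ) →* GL (Fin n) ℤ_[p])
    (P : Ideal (𝓞 (AlgebraicClosure ℚ))) : Prop :=
  ∀ τ : Gal(AlgebraicClosure ℚ/ℚ), (∀ x : 𝓞 (AlgebraicClosure ℚ), τ • x - x ∈ P) → ρ τ = 1

/-- `ρ` is unramified at all primes that do not lie above a prime number in `S` (in particular at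
the primes above `p`, if `p ∉ S`). -/
def UnramifiedOutside {p n : ℕ} [Fact p.Prime] (S : Finset ℕ)
    (ρ : Gal(AlgebraicClosure ℚ/ℚ) →* GL (Fin n) ℤ_[p]) : Prop :=
  ∀ P : Ideal (𝓞 (AlgebraicClosure ℚ)), P.IsMaximal →
    (∀ q ∈ S, (q : 𝓞 (AlgebraicClosure ℚ)) ∉ P) → UnramifiedAt ρ P

/-- Every `ρ g` is unipotent modulo `p`: some power of `ρ g - 1` is divisible by `p`. -/
def ResiduallyUnipotent {p n : ℕ} [Fact p.Prime]
    (ρ : Gal(AlgebraicClosure ℚ/ℚ) →* GL (Fin n) ℤ_[p]) : Prop :=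
  ∀ g, ∃ (N : ℕ) (β : Matrix (Fin n) (Fin n) ℤ_[p]),
    ((ρ g : Matrix (Fin n) (Fin n) ℤ_[p]) - 1) ^ N = (p : ℤ_[p]) • β

/-- The linking number `λ_j(q)` of the distinct primes `q` and `j`, with respect to a homomorphism
`χ : (ℤ/j)ˣ → ℤ/p`: the value of `χ` at the class of `q` (and `0` if `j` divides `q`). -/
noncomputable def linking {p : ℕ} (j q : ℕ) (χ : (ZMod j)ˣ →* Multiplicative (ZMod p)) : ZMod p :=
  open Classical in if h : Nat.Coprime q j then
    Multiplicative.toAdd (χ (ZMod.unitOfCoprime q h)) else 0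

/-- The members of `S` which are congruent to `1` modulo `p` are the four distinct numbers
`l 0, l 1, l 2, l 3`. -/
def FourPrimes (p : ℕ) (S : Finset ℕ) (l : Fin 4 → ℕ) : Prop :=
  Function.Injective l ∧ ∀ q, (q ∈ S ∧ p ∣ q - 1) ↔ ∃ i, q = l i

/-- `v_p(l 0 - 1)` is smaller than the other three `v_p(l i - 1)`, and these three are not all
equal. -/
def MixedValuations (p : ℕ) (l : Fin 4 → ℕ) : Prop :=
  (∀ i, i ≠ 0 → padicValNat p (l 0 - 1) < padicValNat p (l i - 1)) ∧
    ¬ (padicValNat p (l 1 - 1) = padicValNat p (l 2 - 1) ∧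
      padicValNat p (l 2 - 1) = padicValNat p (l 3 - 1))

/-- No isotropic plane: whenever `b` and `c` are linearly independent vectors over `ℤ/p`, there is
a `k` such that `b k * ∑ j, λ_kj c_j ≠ c k * ∑ j, λ_kj b_j`, where `λ_kj` is the linking number of
`l k` and `l j`.  (The characters of `Gal(ℚbar/ℚ)` with values in `ℤ/p` unramified outside `S`
given by `b` and `c` remain independent on the decomposition group at `l k`.) -/
def NoIsotropicPlane (p : ℕ) (l : Fin 4 → ℕ)
    (χ : ∀ j : ℕ, (ZMod j)ˣ →* Multiplicative (ZMod p)) : Prop :=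
  ∀ b c : Fin 4 → ZMod p, LinearIndependent (ZMod p) ![b, c] →
    ∃ k, b k * ∑ j, linking (l j) (l k) (χ (l j)) * c j ≠
      c k * ∑ j, linking (l j) (l k) (χ (l j)) * b j

theorem result (p : ℕ) [Fact p.Prime] (n : ℕ) (hn : n ≤ 5) (hnp : n + 2 ≤ p) (S : Finset ℕ)
    (hS : ∀ q ∈ S, q.Prime ∧ q ≠ p) (l : Fin 4 → ℕ) (h4 : FourPrimes p S l)
    (χ : ∀ j : ℕ, (ZMod j)ˣ →* Multiplicative (ZMod p)) (hχ : ∀ i, ∃ x, χ (l i) x ≠ 1)
    (hv : MixedValuations p l) (hiso : NoIsotropicPlane p l χ)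
    (ρ : Gal(AlgebraicClosure ℚ/ℚ) →* GL (Fin n) ℤ_[p]) (hρ : Continuous ρ)
    (hur : UnramifiedOutside S ρ) (hres : ResiduallyUnipotent ρ) : ∀ g, ρ g = 1 := by
  have hTAME := Pool.Agent.W327.FM.main Pool.Agent.W258.FM.main
  have hLD := Pool.Agent.W405.TG.main
  have hH := Pool.Agent.W338.TG.main
  have hF : Pool.Agent.W569.TG.Four p S l χ :=
    { prime := hS
      inj := h4.1
      mem := h4.2
      chi := hχ
      val := hv.1
      val' := hv.2
      star := hiso }
  exact Pool.Agent.W569.TG.mainE Pool.Agent.W215.FM.main hTAME Pool.Agent.W571.FM.main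
    Pool.Agent.W22.FM.Exact.main' Pool.Agent.W64.TG.main Pool.Agent.W32.TG.main
    Pool.Agent.W376.TG.Uni.main hLD (Pool.Agent.W99.TG.Rel.main hLD)
    (Pool.Agent.W304.TG.WT.main Pool.Agent.W578.TG.Orth.main) (Pool.W335.TG.main hLD)
    Pool.Agent.W345.TG.main1 Pool.Agent.W569.TG.CL.main Pool.Agent.W569.TG.BD.main
    Pool.Agent.W345.TG.main2 Pool.Agent.W598.TG.Red.main Pool.Agent.W462.TG.main
    (Pool.Agent.W308.TG.algA hH Pool.Agent.W345.TG.pts Pool.Agent.W21.TG.main
      Pool.Agent.W490.TGC3.main) (Pool.Agent.W308.TG.algB hH Pool.Agent.W101.TG.main) Pool.Agent.W352.TG.main Pool.Agent.W345.TG.det S l χ hF n hn hnp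
    ρ hρ (fun P hP hSP τ hτ => hur P hP hSP τ hτ) hres

end Pool.Agent.Results.MP_f68ac8_nt.TameDimensionFive
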