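import Pool.Agent.W569.FM.MainB
import Pool.Agent.W571.FM.Frob
import Pool.Agent.W655.FM.Unip
import Pool.Agent.W655.FM.Depth
import Pool.Agent.W134.FM.Cyclo
import Pool.Agent.W327.FM.TameAbs
import Pool.Agent.W258.FM.TameFin
import Pool.Agent.W215.FM.Gen
import Pool.Agent.W22.FM.Exact
import Pool.Agent.W22.FM.Tri
import Pool.Agent.W22.FM.Iwa

/-!
# The tame Fontaine-Mazur conjecture in dimension two for pro-`p` images

Let `p ≥ 5` and let `S` be a finite set of primes `l ≠ p` with `p ^ 2 ∤ l - 1` which satisfies two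
combinatorial conditions on the `p`-th power residue relations between its members.  Then every
continuous representation `Gal(ℚbar/ℚ) → GL_2(ℤ_p)` which is unramified outside `S` and has
unipotent reduction modulo `p` (that is, factors through the maximal pro-`p` quotient of
`Gal(ℚbar/ℚ)`) is trivial.
-/

set_option autoImplicit false

open NumberField

namespace Pool.Agent.Results.MP_f68ac8_nt.TameDimensionTwo

/-- The representation `ρ` of the absolute Galois group of `ℚ` is unramified at the prime ideal `P`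
of the ring of all algebraic integers: the inertia group at `P` acts trivially. -/
def UnramifiedAt {p : ℕ} [Fact p.Prime] (ρ : Gal(AlgebraicClosure ℚ/ℚ) →* GL (Fin 2) ℤ_[p])
    (P : Ideal (𝓞 (AlgebraicClosure ℚ))) : Prop :=
  ∀ τ : Gal(AlgebraicClosure ℚ/ℚ), (∀ x : 𝓞 (AlgebraicClosure ℚ), τ • x - x ∈ P) → ρ τ = 1

/-- `ρ` is unramified at all primes that do not lie above a prime number in `S` (in particular at
the primes above `p`, if `p ∉ S`). -/
def UnramifiedOutside {p : ℕ} [Fact p.Prime] (S : Finset ℕ)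
    (ρ : Gal(AlgebraicClosure ℚ/ℚ) →* GL (Fin 2) ℤ_[p]) : Prop :=
  ∀ P : Ideal (𝓞 (AlgebraicClosure ℚ)), P.IsMaximal →
    (∀ l ∈ S, (l : 𝓞 (AlgebraicClosure ℚ)) ∉ P) → UnramifiedAt ρ P

/-- Every `ρ g` is unipotent modulo `p`: some power of `ρ g - 1` is divisible by `p`. -/
def ResiduallyUnipotent {p : ℕ} [Fact p.Prime]
    (ρ : Gal(AlgebraicClosure ℚ/ℚ) →* GL (Fin 2) ℤ_[p]) : Prop :=
  ∀ g, ∃ (N : ℕ) (β : Matrix (Fin 2) (Fin 2) ℤ_[p]),
    ((ρ g : Matrix (Fin 2) (Fin 2) ℤ_[p]) - 1) ^ N = (p : ℤ_[p]) • β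

/-- `l` is a `p`-th power modulo `j`. -/
def IsPowerMod (p l j : ℕ) : Prop := ∃ x : ZMod j, x ^ p = (l : ZMod j)

/-- Every nonempty set `J ⊆ S` of primes congruent to `1` modulo `p` contains a prime `l` such
that at most one of the other primes `j ∈ J` has the property that `l` is not a `p`-th power
modulo `j`. -/
def SparselyLinked (p : ℕ) (S : Finset ℕ) : Prop :=
  ∀ J : Finset ℕ, J ⊆ S → (∀ l ∈ J, p ∣ l - 1) → J.Nonempty →
    ∃ l ∈ J, {j : ℕ | j ∈ J ∧ j ≠ l ∧ ¬ IsPowerMod p l j}.Subsingleton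

/-- Whenever `E` and `F` are two disjoint nonempty subsets of `S` consisting of primes congruent
to `1` modulo `p`, one of the two sets contains a prime `l` for which there is exactly one `j` in
the other set such that `l` is not a `p`-th power modulo `j`. -/
def CrossLinked (p : ℕ) (S : Finset ℕ) : Prop :=
  ∀ E F : Finset ℕ, E ⊆ S → F ⊆ S → (∀ l ∈ E, p ∣ l - 1) → (∀ l ∈ F, p ∣ l - 1) →
    Disjoint E F → E.Nonempty → F.Nonempty →
      (∃ l ∈ E, ∃! j : ℕ, j ∈ F ∧ ¬ IsPowerMod p l j) ∨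
      (∃ l ∈ F, ∃! j : ℕ, j ∈ E ∧ ¬ IsPowerMod p l j)

theorem isPowerMod_iff {p l j : ℕ} (hp : p.Prime) (hl : l.Prime) (hj : j.Prime) (hlj : l ≠ j)
    (hpj : p ∣ j - 1) : (l : ZMod j) ^ ((j - 1) / p) = 1 ↔ IsPowerMod p l j := by
  have : Fact j.Prime := ⟨hj⟩
  have hl0 : (l : ZMod j) ≠ 0 := by
    intro h
    have h1 : j ∣ l := (ZMod.natCast_eq_zero_iff l j).1 h
    exact hlj ((Nat.prime_dvd_prime_iff_eq hj hl).1 h1).symm
  have hj1 : 0 < j - 1 := by
    have := hj.two_le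
    omega
  constructor
  · intro h
    obtain ⟨g, hg⟩ := IsCyclic.exists_generator (α := (ZMod j)ˣ)
    obtain ⟨k, hk⟩ := Subgroup.mem_zpowers_iff.1 (hg (Units.mk0 _ hl0))
    have ho : orderOf g = j - 1 := by
      rw [orderOf_eq_card_of_forall_mem_zpowers hg, Nat.card_eq_fintype_card,
        ZMod.card_units]
    have h1 : g ^ (k * (((j - 1) / p : ℕ) : ℤ)) = 1 := by
      rw [zpow_mul, hk, zpow_natCast]
      apply Units.ext
      rw [Units.val_pow_eq_pow_val, Units.val_mk0, h, Units.val_one]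
    rw [← orderOf_dvd_iff_zpow_eq_one, ho] at h1
    obtain ⟨d, hd⟩ := hpj
    have hd0 : 0 < d := Nat.pos_of_ne_zero (by rintro rfl; omega)
    rw [hd, Nat.mul_div_cancel_left _ hp.pos] at h1
    push_cast at h1
    have h2 : (p : ℤ) ∣ k := by
      have hd' : (d : ℤ) ≠ 0 := by exact_mod_cast hd0.ne'
      exact (mul_dvd_mul_iff_right hd').1 h1
    obtain ⟨m, rfl⟩ := h2
    refine ⟨((g ^ m : (ZMod j)ˣ) : ZMod j), ?_⟩
    have h3 : (g ^ m) ^ p = Units.mk0 _ hl0 := by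
      rw [← hk, ← zpow_natCast, ← zpow_mul, mul_comm]
    rw [← Units.val_pow_eq_pow_val, h3, Units.val_mk0]
  · rintro ⟨x, hx⟩
    have hx0 : x ≠ 0 := by
      rintro rfl
      rw [zero_pow hp.ne_zero] at hx
      exact hl0 hx.symm
    rw [← hx, ← pow_mul, Nat.mul_div_cancel' hpj]
    exact ZMod.pow_card_sub_one_eq_one hx0

theorem result (p : ℕ) [Fact p.Prime] (hp5 : 5 ≤ p) (S : Finset ℕ)
    (hS : ∀ l ∈ S, l.Prime ∧ l ≠ p ∧ ¬ p ^ 2 ∣ l - 1) (h1 : SparselyLinked p S)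
    (h2 : CrossLinked p S) (ρ : Gal(AlgebraicClosure ℚ/ℚ) →* GL (Fin 2) ℤ_[p])
    (hρ : Continuous ρ) (hur : UnramifiedOutside S ρ) (hres : ResiduallyUnipotent ρ) :
    ∀ g, ρ g = 1 := by
  have hp : p.Prime := Fact.out
  refine Pool.Agent.W569.FM.mainB Pool.Agent.W215.FM.main
    (Pool.Agent.W327.FM.main Pool.Agent.W258.FM.main) Pool.Agent.W134.FM.main
    Pool.Agent.W571.FM.main Pool.Agent.W655.FM.Unip.main Pool.Agent.W655.FM.Depth.main
    Pool.Agent.W22.FM.Tri.main Pool.Agent.W22.FM.Iwa.iwa Pool.Agent.W22.FM.Iwa.com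
    Pool.Agent.W22.FM.Exact.main' hp5 S hS
    (fun J hJ hJp hJn => ?_) (fun E F hE hF hEp hFp hd hEn hFn => ?_) ρ hρ
    (fun P hP hSP τ hτ => hur P hP hSP τ hτ) hres
  · obtain ⟨l, hl, hsub⟩ := h1 J hJ hJp hJn
    refine ⟨l, hl, fun i hi j hj hil hjl hbi hbj => ?_⟩
    refine hsub ⟨hi, hil, fun h => hbi ?_⟩ ⟨hj, hjl, fun h => hbj ?_⟩
    · exact (isPowerMod_iff hp (hS l (hJ hl)).1 (hS i (hJ hi)).1 (Ne.symm hil) (hJp i hi)).2 h
    · exact (isPowerMod_iff hp (hS l (hJ hl)).1 (hS j (hJ hj)).1 (Ne.symm hjl) (hJp j hj)).2 h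
  · have key : ∀ E F : Finset ℕ, E ⊆ S → F ⊆ S → (∀ l ∈ F, p ∣ l - 1) → Disjoint E F →
        (∃ l ∈ E, ∃! j : ℕ, j ∈ F ∧ ¬ IsPowerMod p l j) →
        ∃ l ∈ E, ∃ j ∈ F, (l : ZMod j) ^ ((j - 1) / p) ≠ 1 ∧
          ∀ i ∈ F, (l : ZMod i) ^ ((i - 1) / p) ≠ 1 → i = j := by
      rintro E F hE hF hFp hd ⟨l, hl, j, ⟨hj, hlj⟩, huniq⟩
      have hne : ∀ i ∈ F, l ≠ i := fun i hi h => Finset.disjoint_left.1 hd hl (h ▸ hi)
      refine ⟨l, hl, j, hj, fun h => hlj ?_, fun i hi h => huniq i ⟨hi, fun h' => h ?_⟩⟩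
      · exact (isPowerMod_iff hp (hS l (hE hl)).1 (hS j (hF hj)).1 (hne j hj) (hFp j hj)).1 h
      · exact (isPowerMod_iff hp (hS l (hE hl)).1 (hS i (hF hi)).1 (hne i hi) (hFp i hi)).2 h'
    rcases h2 E F hE hF hEp hFp hd hEn hFn with h | h
    · exact Or.inl (key E F hE hF hFp hd h)
    · exact Or.inr (key F E hF hE hEp hd.symm h)

end Pool.Agent.Results.MP_f68ac8_nt.TameDimensionTwo
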